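import Mathlib
import Pool.Agent.X116.FallLeg

/-!
# Falling factorials of `k (k + 1)` are Legendre multiplier sequences

The operator is `∏_{i<n} (L - i)` with `L = D (x² - 1) D`.  It is a composition of operators
`(x² - 1) D² + 2 a x D + c` with `0 ≤ c ≤ a²`, of multiplications by `x² - 1`, of derivatives and of
divisions by powers of `x² - 1`, and all of these preserve the property of having only real zeros.
-/

open Polynomial

namespace Pool.Agent.Results.MP_c016d9_an.FallingFactorials

/-- The Legendre polynomials by Rodrigues' formula. -/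
noncomputable def legendre (n : ℕ) : ℝ[X] :=
  C (1 / (2 ^ n * (n.factorial : ℝ))) * derivative^[n] ((X ^ 2 - 1 : ℝ[X]) ^ n)

/-- `p` has only real zeros; the zero polynomial and nonzero constants count. -/
def RealRooted (p : ℝ[X]) : Prop := p = 0 ∨ ∀ z : ℂ, aeval z p = 0 → z.im = 0

/-- `γ` is a Legendre multiplier sequence: `∑ γ_k a_k P_k` has only real zeros whenever
`∑ a_k P_k` has only real zeros. -/
def LegendreMS (γ : ℕ → ℝ) : Prop :=
  ∀ (n : ℕ) (a : ℕ → ℝ), RealRooted (∑ k ∈ Finset.range (n + 1), C (a k) * legendre k) →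
    RealRooted (∑ k ∈ Finset.range (n + 1), C (γ k * a k) * legendre k)

/-- For every `n ≥ 1` the sequence `m_k (m_k - 1) ⋯ (m_k - n + 1)` with `m_k = k (k + 1)` is a
Legendre multiplier sequence. -/
theorem result : ∀ n : ℕ, 1 ≤ n →
    LegendreMS (fun k => ∏ i ∈ Finset.range n, ((k : ℝ) * (k + 1) - i)) := by
  intro n _ N a h
  exact Pool.Agent.X116.FallLeg.main legendre (fun n => rfl) N n a h

end Pool.Agent.Results.MP_c016d9_an.FallingFactorials
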